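import Mathlib

/-!
Oriented simplicial chains in the exterior algebra: monomials, contractions, push-forwards.
-/

set_option autoImplicit false

namespace Pool.Agent.Q124.CM

open ExteriorAlgebra CliffordAlgebra

/-- the exterior algebra on the vertices -/
abbrev Lam (V : Type) : Type := ExteriorAlgebra ℚ (V →₀ ℚ)

variable {V W U : Type}

/-- a vertex -/
noncomputable def vx (v : V) : Lam V := ExteriorAlgebra.ι ℚ (Finsupp.single v 1)

/-- the oriented simplex on a list of vertices -/
noncomputable def mon (l : List V) : Lam V := (l.map vx).prod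

theorem mon_nil : mon ([] : List V) = 1 := rfl

theorem mon_cons (v : V) (l : List V) : mon (v :: l) = vx v * mon l := by simp [mon]

theorem vx_mul_self (v : V) : vx v * vx v = 0 := ExteriorAlgebra.ι_sq_zero _

theorem ι_mul_ι_swap {M : Type} [AddCommGroup M] [Module ℚ M] (a b : M) :
    ExteriorAlgebra.ι ℚ a * ExteriorAlgebra.ι ℚ b = -(ExteriorAlgebra.ι ℚ b * ExteriorAlgebra.ι ℚ a) :=
  eq_neg_of_add_eq_zero_left (ExteriorAlgebra.ι_add_mul_swap a b)

theorem vx_swap (v w : V) (z : Lam V) : vx v * (vx w * z) = -(vx w * (vx v * z)) := by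
  rw [← mul_assoc, ← mul_assoc]
  unfold vx
  rw [ι_mul_ι_swap, neg_mul]

/-- the sum of the coordinates -/
noncomputable def eps (V : Type) : Module.Dual ℚ (V →₀ ℚ) :=
  Finsupp.linearCombination ℚ (fun _ => (1 : ℚ))

/-- a coordinate -/
noncomputable def co (u : V) : Module.Dual ℚ (V →₀ ℚ) := Finsupp.lapply u

@[simp] theorem eps_single (v : V) : eps V (Finsupp.single v 1) = 1 := by simp [eps]

theorem co_single [DecidableEq V] (u v : V) :
    co u (Finsupp.single v 1) = if v = u then 1 else 0 := by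
  simp [co, Finsupp.single_apply]

/-- contraction with a functional -/
noncomputable def ct {M : Type} [AddCommGroup M] [Module ℚ M] (d : Module.Dual ℚ M) :
    ExteriorAlgebra ℚ M →ₗ[ℚ] ExteriorAlgebra ℚ M := contractLeft d

theorem ct_ι_mul {M : Type} [AddCommGroup M] [Module ℚ M] (d : Module.Dual ℚ M) (a : M)
    (z : ExteriorAlgebra ℚ M) :
    ct d (ExteriorAlgebra.ι ℚ a * z) = d a • z - ExteriorAlgebra.ι ℚ a * ct d z :=
  contractLeft_ι_mul _ _ _

theorem ct_vx_mul (d : Module.Dual ℚ (V →₀ ℚ)) (v : V) (z : Lam V) :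
    ct d (vx v * z) = d (Finsupp.single v 1) • z - vx v * ct d z := ct_ι_mul _ _ _

theorem ct_algebraMap {M : Type} [AddCommGroup M] [Module ℚ M] (d : Module.Dual ℚ M) (r : ℚ) :
    ct d (algebraMap ℚ (ExteriorAlgebra ℚ M) r) = 0 := contractLeft_algebraMap _ _ _

theorem ct_one {M : Type} [AddCommGroup M] [Module ℚ M] (d : Module.Dual ℚ M) :
    ct d (1 : ExteriorAlgebra ℚ M) = 0 := contractLeft_one _ _

theorem ct_ct {M : Type} [AddCommGroup M] [Module ℚ M] (d : Module.Dual ℚ M)
    (z : ExteriorAlgebra ℚ M) : ct d (ct d z) = 0 := contractLeft_contractLeft _ _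

theorem ct_comm {M : Type} [AddCommGroup M] [Module ℚ M] (d d' : Module.Dual ℚ M)
    (z : ExteriorAlgebra ℚ M) : ct d (ct d' z) = -ct d' (ct d z) := contractLeft_comm _ _ _

theorem ct_add {M : Type} [AddCommGroup M] [Module ℚ M] (d d' : Module.Dual ℚ M)
    (z : ExteriorAlgebra ℚ M) : ct (d + d') z = ct d z + ct d' z := by
  unfold ct; rw [map_add]; rfl

theorem ct_sub {M : Type} [AddCommGroup M] [Module ℚ M] (d d' : Module.Dual ℚ M)
    (z : ExteriorAlgebra ℚ M) : ct (d - d') z = ct d z - ct d' z := by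
  unfold ct; rw [map_sub]; rfl

theorem ct_zero {M : Type} [AddCommGroup M] [Module ℚ M]
    (z : ExteriorAlgebra ℚ M) : ct (0 : Module.Dual ℚ M) z = 0 := by
  unfold ct; rw [map_zero]; rfl

theorem ct_sum {M κ : Type} [AddCommGroup M] [Module ℚ M] (s : Finset κ)
    (d : κ → Module.Dual ℚ M)
    (z : ExteriorAlgebra ℚ M) : ct (∑ i ∈ s, d i) z = ∑ i ∈ s, ct (d i) z := by
  unfold ct
  rw [map_sum, LinearMap.sum_apply]

/-- contraction and push-forward -/
theorem ct_map {M N : Type} [AddCommGroup M] [Module ℚ M] [AddCommGroup N] [Module ℚ N]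
    (L : M →ₗ[ℚ] N) (d : Module.Dual ℚ N) (z : ExteriorAlgebra ℚ M) :
    ct d (ExteriorAlgebra.map L z) = ExteriorAlgebra.map L (ct (d.comp L) z) := by
  induction z using CliffordAlgebra.left_induction with
  | algebraMap r =>
    have h1 : ExteriorAlgebra.map L (algebraMap ℚ (ExteriorAlgebra ℚ M) r) =
      algebraMap ℚ (ExteriorAlgebra ℚ N) r := AlgHom.commutes _ _
    have h2 := ct_algebraMap (d.comp L) r
    have h3 := ct_algebraMap d r
    change ct d (ExteriorAlgebra.map L (algebraMap ℚ (ExteriorAlgebra ℚ M) r)) =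
      ExteriorAlgebra.map L (ct (d.comp L) (algebraMap ℚ (ExteriorAlgebra ℚ M) r))
    rw [h1, h2, h3, map_zero]
  | add x y hx hy => rw [map_add, map_add, hx, hy, map_add, map_add]
  | ι_mul x m hx =>
    change ct d (ExteriorAlgebra.map L (ExteriorAlgebra.ι ℚ m * x)) =
      ExteriorAlgebra.map L (ct (d.comp L) (ExteriorAlgebra.ι ℚ m * x))
    rw [map_mul, ExteriorAlgebra.map_apply_ι, ct_ι_mul, hx, ct_ι_mul, map_sub, map_smul, map_mul,
      ExteriorAlgebra.map_apply_ι]
    rfl

/-- push-forward along a map sending vertices to vectors -/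
noncomputable def mp (g : V → (W →₀ ℚ)) : Lam V →ₐ[ℚ] Lam W :=
  ExteriorAlgebra.map (Finsupp.linearCombination ℚ g)

theorem mp_vx (g : V → (W →₀ ℚ)) (v : V) : mp g (vx v) = ExteriorAlgebra.ι ℚ (g v) := by
  unfold mp vx
  rw [ExteriorAlgebra.map_apply_ι]
  simp

/-- push-forward along a map of vertices -/
noncomputable def pf (f : V → W) : Lam V →ₐ[ℚ] Lam W := mp (fun v => Finsupp.single (f v) 1)

theorem pf_vx (f : V → W) (v : V) : pf f (vx v) = vx (f v) := mp_vx _ _

theorem pf_mon (f : V → W) (l : List V) : pf f (mon l) = mon (l.map f) := by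
  induction l with
  | nil => simp [mon]
  | cons v l ih => rw [mon_cons, map_mul, ih, pf_vx, List.map_cons, mon_cons]

/-- two linear functionals on the free module agree when they agree on vertices -/
theorem dual_ext {N : Type} [AddCommGroup N] [Module ℚ N] {d d' : (V →₀ ℚ) →ₗ[ℚ] N}
    (h : ∀ v, d (Finsupp.single v 1) = d' (Finsupp.single v 1)) : d = d' := by
  apply Finsupp.lhom_ext'
  intro v
  apply LinearMap.ext_ring
  exact h v

theorem ct_mp (g : V → (W →₀ ℚ)) (d : Module.Dual ℚ (W →₀ ℚ)) (d' : Module.Dual ℚ (V →₀ ℚ))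
    (h : ∀ v, d (g v) = d' (Finsupp.single v 1)) (z : Lam V) :
    ct d (mp g z) = mp g (ct d' z) := by
  have e : d.comp (Finsupp.linearCombination ℚ g) = d' := dual_ext (fun v => by simpa using h v)
  unfold mp
  rw [ct_map, e]

theorem mp_mp (g : V → (W →₀ ℚ)) (g' : W → (U →₀ ℚ)) (g'' : V → (U →₀ ℚ))
    (h : ∀ v, Finsupp.linearCombination ℚ g' (g v) = g'' v) (z : Lam V) :
    mp g' (mp g z) = mp g'' z := by
  have e : (Finsupp.linearCombination ℚ g').comp (Finsupp.linearCombination ℚ g) =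
      Finsupp.linearCombination ℚ g'' := dual_ext (fun v => by simpa using h v)
  unfold mp
  rw [← e, ← ExteriorAlgebra.map_comp_map]
  rfl

theorem pf_pf (f : V → W) (f' : W → U) (z : Lam V) : pf f' (pf f z) = pf (f' ∘ f) z :=
  mp_mp _ _ _ (fun v => by simp) z

theorem pf_id (z : Lam V) : pf (id : V → V) z = z := by
  have e : Finsupp.linearCombination ℚ (fun v : V => Finsupp.single (id v) (1 : ℚ)) =
      LinearMap.id := dual_ext (fun v => by simp)
  unfold pf mp
  rw [e, ExteriorAlgebra.map_id]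
  rfl

/-- the boundary -/
noncomputable abbrev bd : Lam V →ₗ[ℚ] Lam V := ct (eps V)

theorem bd_pf (f : V → W) (z : Lam V) : bd (pf f z) = pf f (bd z) :=
  ct_mp _ _ _ (fun v => by simp) z

/-- left induction -/
theorem lam_ind {P : Lam V → Prop} (h0 : ∀ r : ℚ, P (algebraMap ℚ (Lam V) r))
    (h1 : ∀ x y, P x → P y → P (x + y)) (hs : ∀ (r : ℚ) x, P x → P (r • x))
    (h2 : ∀ v x, P x → P (vx v * x)) (z : Lam V) : P z := by
  induction z using CliffordAlgebra.left_induction with
  | algebraMap r => exact h0 r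
  | add x y hx hy => exact h1 x y hx hy
  | ι_mul x m hx =>
    change P (ExteriorAlgebra.ι ℚ m * x)
    induction m using Finsupp.induction_linear with
    | zero => rw [map_zero, zero_mul]; simpa using h0 0
    | add f g hf hg => rw [map_add, add_mul]; exact h1 _ _ hf hg
    | single v r =>
      have e : Finsupp.single v r = r • Finsupp.single v (1 : ℚ) := by simp
      rw [e, map_smul, smul_mul_assoc]
      exact hs _ _ (h2 v x hx)

/-- the span of the monomials of length `n` on vertices of `S` -/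
noncomputable def sp (S : Set V) (n : ℕ) : Submodule ℚ (Lam V) :=
  Submodule.span ℚ {z | ∃ l : List V, l.length = n ∧ (∀ v ∈ l, v ∈ S) ∧ z = mon l}

theorem mon_mem_sp {S : Set V} {l : List V} (h : ∀ v ∈ l, v ∈ S) : mon l ∈ sp S l.length :=
  Submodule.subset_span ⟨l, rfl, h, rfl⟩

theorem sp_mono {S T : Set V} (h : S ⊆ T) (n : ℕ) : sp S n ≤ sp T n := by
  apply Submodule.span_mono
  rintro z ⟨l, h1, h2, h3⟩
  exact ⟨l, h1, fun v hv => h (h2 v hv), h3⟩

/-- a linear map sends `sp S n` into a submodule once it does so on monomials -/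
theorem sp_le {N : Type} [AddCommGroup N] [Module ℚ N] {S : Set V} {n : ℕ}
    (f : Lam V →ₗ[ℚ] N) (T : Submodule ℚ N)
    (h : ∀ l : List V, l.length = n → (∀ v ∈ l, v ∈ S) → f (mon l) ∈ T) {z : Lam V}
    (hz : z ∈ sp S n) : f z ∈ T := by
  have : sp S n ≤ T.comap f := by
    apply Submodule.span_le.2
    rintro z ⟨l, h1, h2, rfl⟩
    exact h l h1 h2
  exact this hz

theorem vx_mul_mem {S : Set V} {n : ℕ} {v : V} (hv : v ∈ S) {z : Lam V} (hz : z ∈ sp S n) :
    vx v * z ∈ sp S (n + 1) := by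
  refine sp_le (LinearMap.mulLeft ℚ (vx v)) (sp S (n + 1)) (fun l h1 h2 => ?_) hz
  rw [LinearMap.mulLeft_apply, ← mon_cons, ← h1]
  refine mon_mem_sp (l := v :: l) (fun w hw => ?_)
  rcases List.mem_cons.1 hw with h | h
  · rw [h]; exact hv
  · exact h2 w h

theorem ct_mem {S : Set V} {n : ℕ} (d : Module.Dual ℚ (V →₀ ℚ)) {z : Lam V}
    (hz : z ∈ sp S (n + 1)) : ct d z ∈ sp S n := by
  refine sp_le (ct d) (sp S n) (fun l h1 h2 => ?_) hz
  clear hz
  induction l generalizing n with
  | nil => simp at h1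
  | cons v l ih =>
    rw [mon_cons, ct_vx_mul]
    have h1' : l.length = n := by simpa using h1
    have h2' : ∀ w ∈ l, w ∈ S := fun w hw => h2 w (List.mem_cons_of_mem _ hw)
    apply Submodule.sub_mem
    · apply Submodule.smul_mem
      rw [← h1']
      exact mon_mem_sp h2'
    · cases n with
      | zero =>
        have : l = [] := List.length_eq_zero_iff.1 h1'
        rw [this, mon_nil, ct_one, mul_zero]
        exact Submodule.zero_mem _
      | succ n => exact vx_mul_mem (h2 v (by simp)) (ih h1' h2')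

theorem ct_co_zero [DecidableEq V] {S : Set V} {n : ℕ} {u : V} (hu : u ∉ S) {z : Lam V}
    (hz : z ∈ sp S n) : ct (co u) z = 0 := by
  have := sp_le (ct (co u)) ⊥ (fun l h1 h2 => ?_) hz
  · simpa using this
  · rw [Submodule.mem_bot]
    clear h1 hz
    induction l with
    | nil => rw [mon_nil, ct_one]
    | cons v l ih =>
      have hv : v ≠ u := fun h => hu (h ▸ h2 v (by simp))
      rw [mon_cons, ct_vx_mul, ih (fun w hw => h2 w (List.mem_cons_of_mem _ hw)), co_single,
        if_neg hv]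
      simp

theorem pf_mem {S : Set V} {T : Set W} {n : ℕ} (f : V → W) (h : ∀ v ∈ S, f v ∈ T) {z : Lam V}
    (hz : z ∈ sp S n) : pf f z ∈ sp T n := by
  refine sp_le (pf f).toLinearMap (sp T n) (fun l h1 h2 => ?_) hz
  rw [AlgHom.toLinearMap_apply, pf_mon, ← h1, ← List.length_map f]
  refine mon_mem_sp (fun w hw => ?_)
  obtain ⟨v, hv, rfl⟩ := List.mem_map.1 hw
  exact h v (h2 v hv)

/-- push-forward along a partial map of vertices -/
theorem mp_mem {S : Set V} {T : Set W} {n : ℕ} (g : V → (W →₀ ℚ))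
    (h : ∀ v ∈ S, g v = 0 ∨ ∃ w ∈ T, g v = Finsupp.single w 1) {z : Lam V}
    (hz : z ∈ sp S n) : mp g z ∈ sp T n := by
  refine sp_le (mp g).toLinearMap (sp T n) (fun l h1 h2 => ?_) hz
  rw [AlgHom.toLinearMap_apply]
  clear hz
  induction l generalizing n with
  | nil =>
    rw [← h1, mon_nil, map_one]
    exact mon_mem_sp (l := []) (by simp)
  | cons v l ih =>
    rw [mon_cons, map_mul, mp_vx, ← h1]
    have ih' := ih rfl (fun w hw => h2 w (List.mem_cons_of_mem _ hw))
    rcases h v (h2 v (by simp)) with h3 | ⟨w, hw, h3⟩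
    · rw [h3, map_zero, zero_mul]; exact Submodule.zero_mem _
    · rw [h3]; exact vx_mul_mem hw ih'

end Pool.Agent.Q124.CM
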