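import Mathlib
import Pool.Agent.Q124.CM.Ext

/-!
The power construction on incidences and its effect on cycles.
-/

set_option autoImplicit false

namespace Pool.Agent.Q124.CM

open ExteriorAlgebra CliffordAlgebra

variable {V : Type} [Fintype V] [DecidableEq V]

/-- translation in the cube -/
def sh (x y : V → Bool) : V → Bool := fun v => xor (y v) (x v)

/-- the origin -/
def org : V → Bool := fun _ => false

/-- unit vectors -/
def un (u : V) : V → Bool := fun v => decide (v = u)

omit [Fintype V] [DecidableEq V] in
theorem sh_sh (x y : V → Bool) : sh x (sh x y) = y := by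
  funext v; simp [sh]

omit [Fintype V] [DecidableEq V] in
theorem sh_comm (x x' y : V → Bool) : sh x (sh x' y) = sh x' (sh x y) := by
  funext v; simp only [sh]; cases x v <;> cases x' v <;> cases y v <;> rfl

omit [Fintype V] [DecidableEq V] in
theorem sh_comp (x x' y : V → Bool) : sh (sh x x') y = sh x (sh x' y) := by
  funext v; simp only [sh]; cases x v <;> cases x' v <;> cases y v <;> rfl

omit [Fintype V] [DecidableEq V] in
theorem sh_org (x : V → Bool) : sh x org = x := by
  funext v; simp [sh, org]

omit [Fintype V] [DecidableEq V] in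
theorem org_sh (x : V → Bool) : sh org x = x := by
  funext v; simp [sh, org]

omit [Fintype V] [DecidableEq V] in
theorem sh_self (x : V → Bool) : sh x x = org := by
  funext v; simp [sh, org]

omit [Fintype V] [DecidableEq V] in
theorem sh_eq_org (x y : V → Bool) : sh x y = org ↔ y = x := by
  constructor
  · intro h
    have := congrArg (sh x) h
    rw [sh_sh, sh_org] at this
    exact this
  · rintro rfl; exact sh_self _

/-- killing the vertices of a set -/
noncomputable def kl (x : V → Bool) : V → (V →₀ ℚ) := fun v => if x v then 0 else Finsupp.single v 1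

theorem co_kl (x : V → Bool) (u : V) (z : Lam V) :
    ct (co u) (mp (kl x) z) = if x u then 0 else mp (kl x) (ct (co u) z) := by
  have h := ct_mp (kl x) (co u) (if x u then 0 else co u) (fun v => by
    unfold kl
    by_cases hv : v = u
    · subst hv
      by_cases hx : x v <;> simp [hx]
    · by_cases hx : x v <;> by_cases hu : x u <;> simp [hx, hu, co_single, hv]) z
  rw [h]
  by_cases hu : x u
  · simp [hu, ct_zero]
  · simp [hu]

theorem split (u : V) (z : Lam V) : z = mp (kl (un u)) z + vx u * ct (co u) z := by
  induction z using lam_ind with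
  | h0 r =>
    rw [ct_algebraMap, mul_zero, add_zero]
    exact (AlgHom.commutes _ _).symm
  | h1 x y hx hy =>
    rw [map_add, map_add, mul_add]
    nth_rewrite 1 [hx]
    nth_rewrite 1 [hy]
    abel
  | hs r x hx =>
    rw [map_smul, map_smul, mul_smul_comm, ← smul_add, ← hx]
  | h2 v x hx =>
    rw [map_mul, mp_vx, ct_vx_mul, co_single]
    by_cases h : v = u
    · subst h
      have : kl (un v) v = 0 := by simp [kl, un]
      rw [this, if_pos rfl, one_smul, mul_sub, ← mul_assoc (vx v) (vx v), vx_mul_self]
      simp
    · have : kl (un u) v = Finsupp.single v 1 := by simp [kl, un, h]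
      rw [this, if_neg h, zero_smul, zero_sub, mul_neg, vx_swap, neg_neg]
      change vx v * x = vx v * _ + _
      nth_rewrite 1 [hx]
      rw [mul_add]

theorem kl_co (u : V) (z : Lam V) : mp (kl (un u)) (ct (co u) z) = ct (co u) z := by
  induction z using lam_ind with
  | h0 r => rw [ct_algebraMap, map_zero]
  | h1 x y hx hy => rw [map_add, map_add, hx, hy]
  | hs r x hx => rw [map_smul, map_smul, hx]
  | h2 v x hx =>
    rw [ct_vx_mul, co_single, map_sub, map_smul, map_mul, mp_vx, hx]
    by_cases h : v = u
    · subst h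
      have : kl (un v) v = 0 := by simp [kl, un]
      rw [this, if_pos rfl, one_smul, one_smul, map_zero, zero_mul, sub_zero]
      exact eq_sub_of_add_eq (split v x).symm
    · have : kl (un u) v = Finsupp.single v 1 := by simp [kl, un, h]
      rw [this, if_neg h, zero_smul, zero_smul]
      rfl

theorem kl_sh (x : V → Bool) (u : V) (z : Lam V) :
    mp (kl (sh (un u) x)) (ct (co u) z) = mp (kl x) (ct (co u) z) := by
  have h1 := mp_mp (kl (un u)) (kl (sh (un u) x))
    (fun v => if x v ∨ v = u then 0 else Finsupp.single v 1) (fun v => by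
      by_cases h : v = u
      · simp [kl, un, h]
      · by_cases hx : x v <;> simp [kl, un, h, sh, hx]) (ct (co u) z)
  have h2 := mp_mp (kl (un u)) (kl x)
    (fun v => if x v ∨ v = u then 0 else Finsupp.single v 1) (fun v => by
      by_cases h : v = u
      · simp [kl, un, h]
      · by_cases hx : x v <;> simp [kl, un, h, hx]) (ct (co u) z)
  rw [kl_co] at h1 h2
  rw [h1, h2]

/-- the boundary is the sum of all contractions -/
theorem bd_eq (z : Lam V) : bd z = ∑ u, ct (co u) z := by
  have e : eps V = ∑ u, co u := by
    apply dual_ext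
    intro v
    rw [eps_single, LinearMap.sum_apply]
    simp [co_single]
  rw [← ct_sum, ← e]

/-- the chain map from the complex to the link of the origin -/
noncomputable def B : ℕ → Lam V →ₗ[ℚ] Lam (V → Bool)
  | 0 => (Algebra.linearMap ℚ (Lam (V → Bool))).comp
      (ExteriorAlgebra.algebraMapInv (M := V →₀ ℚ) (R := ℚ)).toLinearMap
  | n + 1 => ∑ u : V, (LinearMap.mulLeft ℚ (vx (un u))).comp
      ((pf (sh (un u))).toLinearMap.comp ((B n).comp (ct (co u))))

theorem B_zero (z : Lam V) : B 0 z = algebraMap ℚ (Lam (V → Bool)) (ExteriorAlgebra.algebraMapInv z) :=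
  rfl

theorem B_succ (n : ℕ) (z : Lam V) :
    B (n + 1) z = ∑ u : V, vx (un u) * pf (sh (un u)) (B n (ct (co u) z)) := by
  rw [B, LinearMap.sum_apply]
  rfl

omit [Fintype V] [DecidableEq V] in
theorem pf_sh_comm (x x' : V → Bool) (z : Lam (V → Bool)) :
    pf (sh x) (pf (sh x') z) = pf (sh x') (pf (sh x) z) := by
  rw [pf_pf, pf_pf]
  congr 2
  funext y
  exact sh_comm _ _ _

theorem bd_B (n : ℕ) (z : Lam V) : bd (B (n + 1) z) = B n (bd z) := by
  induction n generalizing z with
  | zero =>
    rw [B_succ, map_sum, bd_eq, map_sum]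
    refine Finset.sum_congr rfl (fun u _ => ?_)
    rw [B_zero, AlgHom.commutes, ct_vx_mul, ct_algebraMap]
    simp
  | succ n ih =>
    rw [B_succ, map_sum]
    have h1 : ∀ u : V, bd (vx (un u) * pf (sh (un u)) (B (n + 1) (ct (co u) z))) =
        pf (sh (un u)) (B (n + 1) (ct (co u) z)) +
        vx (un u) * pf (sh (un u)) (B n (ct (co u) (bd z))) := by
      intro u
      rw [ct_vx_mul, eps_single, one_smul, bd_pf, ih, ct_comm, map_neg, map_neg, mul_neg,
        sub_neg_eq_add]
    rw [Finset.sum_congr rfl (fun u _ => h1 u), Finset.sum_add_distrib, ← B_succ]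
    have h2 : ∑ u : V, pf (sh (un u)) (B (n + 1) (ct (co u) z)) = 0 := by
      set G : V → V → Lam (V → Bool) := fun u w =>
        vx (sh (un u) (un w)) * pf (sh (un u)) (pf (sh (un w)) (B n (ct (co w) (ct (co u) z))))
        with hG
      have h3 : ∀ u : V, pf (sh (un u)) (B (n + 1) (ct (co u) z)) = ∑ w, G u w := by
        intro u
        rw [B_succ, map_sum]
        refine Finset.sum_congr rfl (fun w _ => ?_)
        rw [map_mul, pf_vx]
      have h4 : ∀ u w : V, G u w = - G w u := by
        intro u w
        simp only [hG]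
        rw [ct_comm, map_neg, map_neg, map_neg, mul_neg, pf_sh_comm]
        congr 2
        congr 1
        funext v
        simp only [sh, un]
        cases decide (v = w) <;> cases decide (v = u) <;> rfl
      rw [Finset.sum_congr rfl (fun u _ => h3 u)]
      have h5 : ∑ u : V, ∑ w : V, G u w = - ∑ u : V, ∑ w : V, G u w := by
        conv_lhs => rw [Finset.sum_comm]
        rw [← Finset.sum_neg_distrib]
        refine Finset.sum_congr rfl (fun u _ => ?_)
        rw [← Finset.sum_neg_distrib]
        exact Finset.sum_congr rfl (fun w _ => h4 w u)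
      have h6 : (2 : ℚ) • ∑ u : V, ∑ w : V, G u w = 0 := by
        rw [two_smul]
        nth_rewrite 1 [h5]
        exact neg_add_cancel _
      exact (smul_eq_zero.1 h6).resolve_left two_ne_zero
    rw [h2, zero_add]

theorem B_mem (n : ℕ) (S : Set V) {z : Lam V} (hz : z ∈ sp S n) :
    B n z ∈ sp {y : V → Bool | y ≠ org ∧ ∀ v, y v = true → v ∈ S} n := by
  induction n generalizing z S with
  | zero =>
    rw [B_zero, Algebra.algebraMap_eq_smul_one]
    exact Submodule.smul_mem _ _ (mon_mem_sp (l := []) (by simp))
  | succ n ih =>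
    rw [B_succ]
    refine Submodule.sum_mem _ (fun u _ => ?_)
    by_cases hu : u ∈ S
    · have h1 : ct (co u) z ∈ sp (S \ {u}) n := by
        rw [← kl_co]
        refine mp_mem _ (fun v hv => ?_) (ct_mem _ hz)
        by_cases h : v = u
        · left; simp [kl, un, h]
        · right; exact ⟨v, ⟨hv, h⟩, by simp [kl, un, h]⟩
      apply vx_mul_mem
      · refine ⟨fun h => ?_, fun v hv => ?_⟩
        · have := congrFun h u
          simp [un, org] at this
        · simp [un] at hv; rw [hv]; exact hu
      · refine pf_mem _ (fun y hy => ?_) (ih _ h1)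
        have h2 : y u = false := by
          by_contra h
          have := (hy.2 u (by simpa using h)).2
          exact this rfl
        refine ⟨fun h => ?_, fun v hv => ?_⟩
        · have := congrFun h u
          simp [sh, un, org, h2] at this
        · by_cases h : v = u
          · rw [h]; exact hu
          · simp [sh, un, h] at hv
            exact (hy.2 v hv).1
    · rw [ct_co_zero hu hz, map_zero, map_zero, mul_zero]
      exact Submodule.zero_mem _

/-- the sign character -/
def chi (x : V → Bool) : ℚ := ∏ v, if x v then -1 else 1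

theorem chi_org : chi (org : V → Bool) = 1 := by simp [chi, org]

theorem chi_un (x : V → Bool) (u : V) : chi (sh (un u) x) = - chi x := by
  unfold chi
  rw [← Finset.mul_prod_erase Finset.univ _ (Finset.mem_univ u),
    ← Finset.mul_prod_erase Finset.univ (fun v => if x v then (-1 : ℚ) else 1) (Finset.mem_univ u),
    ← neg_mul]
  congr 1
  · cases h : x u <;> simp [sh, un, h]
  · refine Finset.prod_congr rfl (fun v hv => ?_)
    have : v ≠ u := (Finset.mem_erase.1 hv).1
    simp [sh, un, this]

/-- the cycle of the power complex -/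
noncomputable def Zc (n : ℕ) : Lam V →ₗ[ℚ] Lam (V → Bool) :=
  ∑ x : V → Bool, chi x • ((pf (sh x)).toLinearMap.comp ((LinearMap.mulLeft ℚ (vx org)).comp
    ((B n).comp (mp (kl x)).toLinearMap)))

theorem Zc_apply (n : ℕ) (z : Lam V) :
    Zc n z = ∑ x : V → Bool, chi x • pf (sh x) (vx org * B n (mp (kl x) z)) := by
  rw [Zc, LinearMap.sum_apply]
  rfl

/-- translation by a unit vector, as an equivalence -/
def shE (u : V) : (V → Bool) ≃ (V → Bool) where
  toFun := sh (un u)
  invFun := sh (un u)
  left_inv := sh_sh _
  right_inv := sh_sh _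

theorem bd_Zc (n : ℕ) (z : Lam V) (hz : bd z = 0) : bd (Zc (n + 1) z) = 0 := by
  set F : (V → Bool) → V → Lam (V → Bool) := fun x u =>
    chi x • pf (sh x) (vx org * B n (mp (kl x) (ct (co u) z))) with hF
  have h1 : ∀ x : V → Bool, bd (chi x • pf (sh x) (vx org * B (n + 1) (mp (kl x) z))) =
      ∑ u : V, (chi x • pf (sh x) (pf (sh (un u)) (vx org * B n (ct (co u) (mp (kl x) z)))) -
        chi x • pf (sh x) (vx org * B n (ct (co u) (mp (kl x) z)))) := by
    intro x
    rw [map_smul, bd_pf, ct_vx_mul, eps_single, one_smul, bd_B, bd_eq, Finset.sum_sub_distrib,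
      map_sub, smul_sub]
    congr 1
    · rw [B_succ, map_sum, Finset.smul_sum]
      refine Finset.sum_congr rfl (fun u _ => ?_)
      congr 2
      rw [map_mul, pf_vx, sh_org]
    · rw [map_sum, Finset.mul_sum, map_sum, Finset.smul_sum]
  rw [Zc_apply, map_sum, Finset.sum_congr rfl (fun x _ => h1 x), Finset.sum_comm]
  have h2 : ∀ u : V, ∑ x : V → Bool,
      (chi x • pf (sh x) (pf (sh (un u)) (vx org * B n (ct (co u) (mp (kl x) z)))) -
        chi x • pf (sh x) (vx org * B n (ct (co u) (mp (kl x) z)))) = - ∑ x : V → Bool, F x u := by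
    intro u
    rw [Finset.sum_sub_distrib, ← Equiv.sum_comp (shE u), ← Finset.sum_sub_distrib,
      ← Finset.sum_neg_distrib]
    refine Finset.sum_congr rfl (fun x _ => ?_)
    change chi (sh (un u) x) • pf (sh (sh (un u) x)) (pf (sh (un u))
      (vx org * B n (ct (co u) (mp (kl (sh (un u) x)) z)))) - _ = _
    have h3 : ∀ w : Lam (V → Bool), pf (sh (sh (un u) x)) (pf (sh (un u)) w) = pf (sh x) w := by
      intro w
      rw [pf_pf]
      congr 2
      funext y
      simp only [Function.comp]
      rw [sh_comp, sh_comm, sh_sh]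
    rw [chi_un, h3, co_kl, co_kl, kl_sh]
    have h4 : sh (un u) x u = !(x u) := by simp [sh, un]
    rw [h4]
    simp only [hF]
    cases hx : x u <;> simp
  rw [Finset.sum_congr rfl (fun u _ => h2 u), Finset.sum_neg_distrib, Finset.sum_comm, neg_eq_zero]
  refine Finset.sum_eq_zero (fun x _ => ?_)
  simp only [hF]
  rw [← Finset.smul_sum, ← map_sum, ← Finset.mul_sum, ← map_sum, ← map_sum, ← bd_eq, hz]
  simp

/-! ### Detection -/

/-- an injective rank -/
noncomputable def rk (v : V) : ℕ := (Fintype.equivFin V v : ℕ)

omit [DecidableEq V] in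
theorem rk_inj {v w : V} (h : rk v = rk w) : v = w :=
  (Fintype.equivFin V).injective (Fin.ext h)

omit [DecidableEq V] in
theorem exists_mn (y : V → Bool) (h : ∃ v, y v = true) :
    ∃ v, y v = true ∧ ∀ w, y w = true → rk v ≤ rk w := by
  obtain ⟨v0, h0⟩ := h
  obtain ⟨v, hv, hmin⟩ := (Finset.univ.filter (fun v => y v = true)).exists_min_image rk
    ⟨v0, by simpa using h0⟩
  exact ⟨v, by simpa using hv, fun w hw => hmin w (by simpa using hw)⟩

open Classical in
/-- a nonzero point goes to the first vertex of its support -/
noncomputable def gm (y : V → Bool) : V →₀ ℚ :=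
  if h : ∃ v, y v = true then Finsupp.single (exists_mn y h).choose 1 else 0

omit [DecidableEq V] in
theorem gm_org : gm (org : V → Bool) = 0 := by
  unfold gm
  rw [dif_neg]
  rintro ⟨v, hv⟩
  simp [org] at hv

omit [Fintype V] [DecidableEq V] in
theorem ne_org {y : V → Bool} (h : y ≠ org) : ∃ v, y v = true := by
  by_contra hc
  push Not at hc
  exact h (funext fun v => by have := hc v; simpa [org] using this)

omit [DecidableEq V] in
theorem gm_eq {y : V → Bool} {v : V} (h1 : y v = true) (h2 : ∀ w, y w = true → rk v ≤ rk w) :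
    gm y = Finsupp.single v 1 := by
  have h : ∃ v, y v = true := ⟨v, h1⟩
  unfold gm
  rw [dif_pos h]
  have h3 := (exists_mn y h).choose_spec
  rw [rk_inj (le_antisymm (h3.2 v h1) (h2 _ h3.1))]

omit [DecidableEq V] in
theorem gm_spec {y : V → Bool} (h : y ≠ org) :
    ∃ v, y v = true ∧ (∀ w, y w = true → rk v ≤ rk w) ∧ gm y = Finsupp.single v 1 := by
  obtain ⟨v, h1, h2⟩ := exists_mn y (ne_org h)
  exact ⟨v, h1, h2, gm_eq h1 h2⟩

open Classical in
/-- the detecting map -/
noncomputable def Ph (c : Lam (V → Bool)) : Lam V := mp gm (ct (co org) c)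

omit [DecidableEq V] in
theorem bd_Ph (c : Lam (V → Bool)) : bd (Ph c) = - Ph (bd c) := by
  classical
  unfold Ph
  have h := ct_mp (gm (V := V)) (eps V) (eps (V → Bool) - co org) (fun y => by
    by_cases h : y = org
    · subst h
      rw [gm_org, map_zero, LinearMap.sub_apply, eps_single, co_single, if_pos rfl, sub_self]
    · obtain ⟨v, -, -, hv⟩ := gm_spec h
      rw [hv, eps_single, LinearMap.sub_apply, eps_single, co_single, if_neg h, sub_zero])
    (ct (co org) c)
  rw [h, ct_sub, ct_ct, sub_zero, ct_comm, map_neg]

/-- projection to the vertices of rank less than `k` -/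
noncomputable def Pk (k : ℕ) : V → (V →₀ ℚ) := fun v => if rk v < k then Finsupp.single v 1 else 0

omit [Fintype V] [DecidableEq V] in
theorem vx_mul_congr {W : Type} (g g' : W → (V →₀ ℚ)) (v : V) (l : List W)
    (h : ∀ w ∈ l, g w = g' w ∨ ((g w = 0 ∨ g w = Finsupp.single v 1) ∧
      (g' w = 0 ∨ g' w = Finsupp.single v 1))) :
    vx v * mp g (mon l) = vx v * mp g' (mon l) := by
  induction l with
  | nil => rw [mon_nil, map_one, map_one]
  | cons w l ih =>
    have ih' := ih (fun w hw => h w (List.mem_cons_of_mem _ hw))
    rw [mon_cons, map_mul, map_mul, mp_vx, mp_vx, ← mul_assoc, ← mul_assoc]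
    rcases h w (by simp) with h1 | ⟨h1, h2⟩
    · rw [h1]
      unfold vx at ih' ⊢
      rw [ι_mul_ι_swap, neg_mul, neg_mul, mul_assoc, mul_assoc, ih']
    · have e1 : vx v * ExteriorAlgebra.ι ℚ (g w) = 0 := by
        rcases h1 with h1 | h1
        · rw [h1, map_zero, mul_zero]
        · rw [h1]; exact vx_mul_self v
      have e2 : vx v * ExteriorAlgebra.ι ℚ (g' w) = 0 := by
        rcases h2 with h1 | h1
        · rw [h1, map_zero, mul_zero]
        · rw [h1]; exact vx_mul_self v
      rw [e1, e2, zero_mul, zero_mul]

theorem tele (l : List V) (k : ℕ) :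
    ∑ u : V, (if k ≤ rk u then vx u * mp (Pk (rk u)) (ct (co u) (mon l)) else 0) =
      mon l - mp (Pk k) (mon l) := by
  induction l generalizing k with
  | nil =>
    rw [mon_nil, map_one, sub_self]
    refine Finset.sum_eq_zero (fun u _ => ?_)
    rw [ct_one, map_zero, mul_zero, ite_self]
  | cons v l ih =>
    have h1 : ∀ u : V, (if k ≤ rk u then vx u * mp (Pk (rk u)) (ct (co u) (mon (v :: l))) else 0) =
        (if v = u then (if k ≤ rk v then vx v * mp (Pk (rk v)) (mon l) else 0) else 0) +
        vx v * (if k ≤ rk u ∧ rk v < rk u then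
          vx u * mp (Pk (rk u)) (ct (co u) (mon l)) else 0) := by
      intro u
      by_cases hk : k ≤ rk u
      · rw [if_pos hk, mon_cons, ct_vx_mul, co_single, map_sub, map_smul, map_mul, mp_vx, mul_sub]
        by_cases hvu : v = u
        · subst hvu
          have h2 : ¬ (k ≤ rk v ∧ rk v < rk v) := by omega
          have h3 : Pk (rk v) v = 0 := by simp [Pk]
          rw [if_pos rfl, if_pos rfl, if_pos hk, if_neg h2, h3]
          simp
        · rw [if_neg hvu, if_neg hvu, zero_smul, mul_zero, zero_sub, zero_add]
          by_cases hlt : rk v < rk u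
          · have h3 : Pk (rk u) v = Finsupp.single v 1 := by simp [Pk, hlt]
            rw [if_pos ⟨hk, hlt⟩, h3]
            change -(vx u * (vx v * _)) = _
            rw [vx_swap, neg_neg]
          · have h3 : Pk (rk u) v = 0 := by simp [Pk, hlt]
            rw [if_neg (fun h => hlt h.2), h3]
            simp
      · have h2 : ¬ (k ≤ rk u ∧ rk v < rk u) := fun h => hk h.1
        rw [if_neg hk, if_neg h2, mul_zero, add_zero]
        by_cases hvu : v = u
        · subst hvu; simp [hk]
        · rw [if_neg hvu]
    rw [Finset.sum_congr rfl (fun u _ => h1 u), Finset.sum_add_distrib, ← Finset.mul_sum]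
    simp only [Finset.sum_ite_eq, Finset.mem_univ, if_true]
    rw [mon_cons, map_mul, mp_vx]
    by_cases hk : k ≤ rk v
    · have h2 : ∀ u : V, (k ≤ rk u ∧ rk v < rk u) ↔ rk v + 1 ≤ rk u := by intro u; omega
      simp only [h2]
      rw [ih, if_pos hk]
      have h3 : Pk k v = 0 := by simp [Pk, hk]
      rw [h3, map_zero, zero_mul, sub_zero, mul_sub]
      have h4 := vx_mul_congr (Pk (rk v + 1)) (Pk (rk v)) v l (fun w _ => by
        by_cases h5 : rk w < rk v
        · left; simp [Pk, h5, Nat.lt_succ_of_lt h5]
        · by_cases h6 : rk w = rk v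
          · right
            have := rk_inj h6
            subst this
            simp [Pk]
          · left
            have h7 : ¬ rk w < rk v + 1 := by omega
            simp [Pk, h5, h7])
      rw [h4]; abel
    · have h2 : ∀ u : V, (k ≤ rk u ∧ rk v < rk u) ↔ k ≤ rk u := by intro u; omega
      simp only [h2]
      have h3 : Pk k v = Finsupp.single v 1 := by simp [Pk, not_le.1 hk]
      rw [ih, if_neg hk, h3, zero_add, mul_sub]
      rfl

theorem R_id (n : ℕ) {z : Lam V} (hz : z ∈ sp Set.univ n) : mp gm (B n z) = z := by
  induction n generalizing z with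
  | zero =>
    have h := sp_le ((mp gm).toLinearMap.comp (B 0) - LinearMap.id : Lam V →ₗ[ℚ] Lam V) ⊥
      (fun l h1 _ => ?_) hz
    · rw [Submodule.mem_bot, LinearMap.sub_apply, sub_eq_zero] at h
      exact h
    · have : l = [] := List.length_eq_zero_iff.1 h1
      subst this
      rw [Submodule.mem_bot, LinearMap.sub_apply, sub_eq_zero]
      change mp gm (B 0 (mon [])) = mon []
      rw [B_zero, mon_nil, map_one, map_one, map_one]
  | succ n ih =>
    have h := sp_le ((mp gm).toLinearMap.comp (B (n + 1)) - LinearMap.id : Lam V →ₗ[ℚ] Lam V) ⊥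
      (fun l h1 _ => ?_) hz
    · rw [Submodule.mem_bot, LinearMap.sub_apply, sub_eq_zero] at h
      exact h
    rw [Submodule.mem_bot, LinearMap.sub_apply, sub_eq_zero]
    change mp gm (B (n + 1) (mon l)) = mon l
    have h0 : mon l ∈ sp (Set.univ : Set V) (n + 1) := by
      rw [← h1]; exact mon_mem_sp (fun _ _ => trivial)
    have h2 : ∀ u : V, mp gm (vx (un u) * pf (sh (un u)) (B n (ct (co u) (mon l)))) =
        (if 0 ≤ rk u then vx u * mp (Pk (rk u)) (ct (co u) (mon l)) else 0) := by
      intro u
      have h3 : gm (un u) = Finsupp.single u 1 :=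
        gm_eq (by simp [un]) (fun w hw => by simp [un] at hw; rw [hw])
      rw [if_pos (Nat.zero_le _), map_mul, mp_vx, h3]
      change vx u * _ = _
      have h4 : ct (co u) (mon l) ∈ sp (Set.univ \ {u} : Set V) n := by
        rw [← kl_co]
        refine mp_mem _ (fun v hv => ?_) (ct_mem _ h0)
        by_cases h : v = u
        · left; simp [kl, un, h]
        · right; exact ⟨v, ⟨trivial, h⟩, by simp [kl, un, h]⟩
      have h5 := B_mem n _ h4
      have h6 : vx u * mp gm (pf (sh (un u)) (B n (ct (co u) (mon l)))) =
          vx u * mp (Pk (rk u)) (mp gm (B n (ct (co u) (mon l)))) := by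
        have h7 := sp_le ((LinearMap.mulLeft ℚ (vx u)).comp ((mp gm).toLinearMap.comp
          (pf (sh (un u))).toLinearMap) - (LinearMap.mulLeft ℚ (vx u)).comp
          ((mp (Pk (rk u))).toLinearMap.comp (mp gm).toLinearMap) :
          Lam (V → Bool) →ₗ[ℚ] Lam V) ⊥ (fun l' _ hl' => ?_) h5
        · rw [Submodule.mem_bot, LinearMap.sub_apply, sub_eq_zero] at h7
          exact h7
        · rw [Submodule.mem_bot, LinearMap.sub_apply, sub_eq_zero]
          change vx u * mp gm (pf (sh (un u)) (mon l')) = vx u * mp (Pk (rk u)) (mp gm (mon l'))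
          have e1 : mp gm (pf (sh (un u)) (mon l')) = mp (fun y => gm (sh (un u) y)) (mon l') :=
            mp_mp _ _ _ (fun y => by simp) _
          have e2 : mp (Pk (rk u)) (mp gm (mon l')) =
              mp (fun y => Finsupp.linearCombination ℚ (Pk (rk u)) (gm y)) (mon l') :=
            mp_mp _ _ _ (fun y => rfl) _
          rw [e1, e2]
          refine vx_mul_congr _ _ u l' (fun y hy => ?_)
          obtain ⟨hy1, hy2⟩ := hl' y hy
          have hyu : y u = false := by
            by_contra h
            exact (hy2 u (by simpa using h)).2 rfl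
          obtain ⟨v, hv1, hv2, hv3⟩ := gm_spec hy1
          have hvu : v ≠ u := fun h => by rw [h, hyu] at hv1; exact absurd hv1 (by simp)
          by_cases hlt : rk v < rk u
          · left
            have e3 : gm (sh (un u) y) = Finsupp.single v 1 := by
              refine gm_eq (by simp [sh, un, hvu, hv1]) (fun w hw => ?_)
              by_cases hwu : w = u
              · rw [hwu]; exact hlt.le
              · exact hv2 w (by simpa [sh, un, hwu] using hw)
            rw [e3, hv3]
            simp [Pk, hlt]
          · right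
            have hlt' : rk u < rk v := lt_of_le_of_ne (not_lt.1 hlt)
              (fun h => hvu (rk_inj h).symm)
            refine ⟨Or.inr (gm_eq (by simp [sh, un, hyu]) (fun w hw => ?_)), Or.inl ?_⟩
            · by_cases hwu : w = u
              · rw [hwu]
              · exact hlt'.le.trans (hv2 w (by simpa [sh, un, hwu] using hw))
            · rw [hv3]
              simp [Pk, hlt]
      rw [h6, ih (sp_mono (Set.subset_univ _) n h4)]
    rw [B_succ, map_sum, Finset.sum_congr rfl (fun u _ => h2 u), tele]
    have h8 : mp (Pk 0) (mon l) = 0 := by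
      cases l with
      | nil => simp at h1
      | cons v l =>
        rw [mon_cons, map_mul, mp_vx]
        simp [Pk]
    rw [h8, sub_zero]

theorem Ph_Zc (n : ℕ) {z : Lam V} (hz : z ∈ sp Set.univ n) : Ph (Zc n z) = z := by
  classical
  have h1 : ∀ x : V → Bool, mp gm (ct (co org) (chi x • pf (sh x) (vx org * B n (mp (kl x) z)))) =
      if x = org then z else 0 := by
    intro x
    have e1 : ct (co org) (pf (sh x) (vx org * B n (mp (kl x) z))) =
        pf (sh x) (ct (co x) (vx org * B n (mp (kl x) z))) := by
      refine ct_mp _ _ _ (fun y => ?_) _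
      rw [co_single, co_single]
      by_cases h : y = x
      · rw [if_pos h, if_pos ((sh_eq_org x y).2 h)]
      · rw [if_neg h, if_neg (fun h' => h ((sh_eq_org x y).1 h'))]
    have e2 : mp (kl x) z ∈ sp {v : V | x v = false} n := by
      refine mp_mem _ (fun v _ => ?_) hz
      cases h : x v
      · right; exact ⟨v, h, by simp [kl, h]⟩
      · left; simp [kl, h]
    have e3 := B_mem n _ e2
    have e4 : ct (co x) (B n (mp (kl x) z)) = 0 := by
      refine ct_co_zero (fun h => ?_) e3
      obtain ⟨v, hv⟩ := ne_org h.1
      have := h.2 v hv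
      change x v = false at this
      rw [hv] at this
      exact absurd this (by simp)
    rw [map_smul, e1, ct_vx_mul, e4, mul_zero, sub_zero, co_single]
    by_cases hx : x = org
    · subst hx
      rw [if_pos rfl, if_pos rfl, one_smul, chi_org, one_smul]
      have e5 : (sh org : (V → Bool) → (V → Bool)) = id := funext org_sh
      rw [e5, pf_id]
      have e6 : mp (kl (org : V → Bool)) z = z := by
        have := pf_id z
        have e7 : (kl (org : V → Bool)) = fun v => Finsupp.single (id v) 1 := by
          funext v; simp [kl, org]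
        rw [e7]; exact this
      rw [e6]
      exact R_id n hz
    · rw [if_neg hx, if_neg (fun h => hx h.symm), zero_smul, map_zero, smul_zero, map_zero]
  unfold Ph
  rw [Zc_apply, map_sum, map_sum, Finset.sum_congr rfl (fun x _ => h1 x)]
  simp

end Pool.Agent.Q124.CM
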