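import Mathlib
import Pool.Agent.Q124.CM.Pow

/-!
Iterating the power construction on incidences.
-/

set_option autoImplicit false

namespace Pool.Agent.Q124.CM

/-- chains with `n` vertices of the complex whose facets are the sets `{v | I v x}` -/
noncomputable def ch {V X : Type} (I : V → X → Prop) (n : ℕ) : Submodule ℚ (Lam V) :=
  Submodule.span ℚ {z | ∃ l : List V, l.length = n ∧ (∃ x, ∀ v ∈ l, I v x) ∧ z = mon l}

theorem ch_le {V X N : Type} {I : V → X → Prop} [AddCommGroup N] [Module ℚ N] {n : ℕ}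
    (f : Lam V →ₗ[ℚ] N) (T : Submodule ℚ N)
    (h : ∀ (l : List V) (x : X), l.length = n → (∀ v ∈ l, I v x) → f (mon l) ∈ T) {z : Lam V}
    (hz : z ∈ ch I n) : f z ∈ T := by
  have : ch I n ≤ T.comap f := by
    apply Submodule.span_le.2
    rintro z ⟨l, h1, ⟨x, h2⟩, rfl⟩
    exact h l x h1 h2
  exact this hz

theorem sp_le_ch {V X : Type} (I : V → X → Prop) (x : X) (n : ℕ) :
    sp {v | I v x} n ≤ ch I n := by
  apply Submodule.span_mono
  rintro z ⟨l, h1, h2, h3⟩
  exact ⟨l, h1, ⟨x, h2⟩, h3⟩

theorem ch_le_sp {V X : Type} (I : V → X → Prop) (n : ℕ) : ch I n ≤ sp Set.univ n := by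
  apply Submodule.span_mono
  rintro z ⟨l, h1, h2, h3⟩
  exact ⟨l, h1, fun _ _ => trivial, h3⟩

/-- the power of an incidence -/
def pw {V X : Type} (I : V → X → Prop) (y : V → Bool) (p : (V → Bool) × X) : Prop :=
  ∀ v, y v ≠ p.1 v → I v p.2

/-- there is a cycle on `n` vertices that is not a boundary -/
def Good {V X : Type} (I : V → X → Prop) (n : ℕ) : Prop :=
  ∃ z ∈ ch I n, bd z = 0 ∧ ∀ b ∈ ch I (n + 1), bd b ≠ z

theorem good_pow {V X : Type} [Fintype V] [DecidableEq V] (I : V → X → Prop) (n : ℕ)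
    (h : Good I (n + 1)) : Good (pw I) (n + 2) := by
  obtain ⟨z, h1, h2, h3⟩ := h
  refine ⟨Zc (n + 1) z, ?_, bd_Zc n z h2, fun b hb hbz => ?_⟩
  · refine ch_le (Zc (n + 1)) _ (fun l F hl hF => ?_) h1
    rw [Zc_apply]
    refine Submodule.sum_mem _ (fun x _ => Submodule.smul_mem _ _ ?_)
    have e1 : mon l ∈ sp {v | I v F} (n + 1) := by rw [← hl]; exact mon_mem_sp hF
    have e2 : mp (kl x) (mon l) ∈ sp {v | I v F} (n + 1) := by
      refine mp_mem _ (fun v hv => ?_) e1
      cases hx : x v
      · right; exact ⟨v, hv, by simp [kl, hx]⟩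
      · left; simp [kl, hx]
    have e3 := B_mem (n + 1) _ e2
    have e4 := sp_mono (T := {y : V → Bool | ∀ v, y v = true → I v F}) (fun y hy => hy.2) _ e3
    have e5 := vx_mul_mem (v := (org : V → Bool)) (S := {y : V → Bool | ∀ v, y v = true → I v F})
      (fun v hv => by simp [org] at hv) e4
    refine sp_le_ch (pw I) (x, F) _ (pf_mem _ (fun y hy => ?_) e5)
    intro v hv
    refine hy v ?_
    by_contra hc
    apply hv
    have : y v = false := by simpa using hc
    simp [sh, this]
  · have e1 : Ph b ∈ ch I (n + 2) := by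
      have := ch_le ((mp gm).toLinearMap.comp (ct (co org)) : Lam (V → Bool) →ₗ[ℚ] Lam V)
        (ch I (n + 2)) (fun l p hl hp => ?_) hb
      · exact this
      · change mp gm (ct (co org) (mon l)) ∈ _
        have f1 : mon l ∈ sp {y | pw I y p} (n + 2 + 1) := by rw [← hl]; exact mon_mem_sp hp
        by_cases ho : pw I org p
        · refine sp_le_ch I p.2 _ (mp_mem _ (fun y hy => ?_) (ct_mem _ f1))
          by_cases hy0 : y = org
          · left; rw [hy0]; exact gm_org
          · right
            obtain ⟨v, hv1, -, hv3⟩ := gm_spec hy0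
            refine ⟨v, ?_, hv3⟩
            cases hx : p.1 v
            · exact hy v (by rw [hv1, hx]; simp)
            · exact ho v (by rw [hx]; simp [org])
        · rw [ct_co_zero (S := {y | pw I y p}) ho f1, map_zero]
          exact Submodule.zero_mem _
    refine h3 (-Ph b) (Submodule.neg_mem _ e1) ?_
    rw [map_neg, bd_Ph, neg_neg, hbz]
    exact Ph_Zc (n + 1) (ch_le_sp I _ h1)

/-- no comatching of size three -/
def NoCom {V X : Type} (I : V → X → Prop) : Prop :=
  ∀ (v0 v1 v2 : V) (x0 x1 x2 : X), I v1 x0 → I v2 x0 → I v0 x1 → I v2 x1 → I v0 x2 → I v1 x2 →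
    I v0 x0 ∨ I v1 x1 ∨ I v2 x2

theorem noCom_pow {V X : Type} (I : V → X → Prop) (h : NoCom I) : NoCom (pw I) := by
  rintro y0 y1 y2 ⟨x0, F0⟩ ⟨x1, F1⟩ ⟨x2, F2⟩ h10 h20 h01 h21 h02 h12
  by_contra hc
  push Not at hc
  obtain ⟨c0, c1, c2⟩ := hc
  unfold pw at *
  simp only at *
  push Not at c0 c1 c2
  obtain ⟨u0, a0, b0⟩ := c0
  obtain ⟨u1, a1, b1⟩ := c1
  obtain ⟨u2, a2, b2⟩ := c2
  have key : ∀ (y y' y'' x x' : V → Bool) (F F' : X) (u : V),
      (∀ v, y' v ≠ x v → I v F) → y u ≠ x u → ¬ I u F →
      (∀ v, y v ≠ x' v → I v F') → (∀ v, y' v ≠ x' v → I v F') → I u F' := by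
    intro y y' y'' x x' F F' u g1 g2 g3 g4 g5
    by_contra g6
    have e1 : y' u = x u := by by_contra g; exact g3 (g1 u g)
    have e2 : y u = x' u := by by_contra g; exact g6 (g4 u g)
    have e3 : y' u = x' u := by by_contra g; exact g6 (g5 u g)
    exact g2 (by rw [e2, ← e3, e1])
  have i01 := key y0 y2 y2 x0 x1 F0 F1 u0 h20 a0 b0 h01 h21
  have i02 := key y0 y1 y1 x0 x2 F0 F2 u0 h10 a0 b0 h02 h12
  have i10 := key y1 y2 y2 x1 x0 F1 F0 u1 h21 a1 b1 h10 h20
  have i12 := key y1 y0 y0 x1 x2 F1 F2 u1 h01 a1 b1 h12 h02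
  have i20 := key y2 y1 y1 x2 x0 F2 F0 u2 h12 a2 b2 h20 h10
  have i21 := key y2 y0 y0 x2 x1 F2 F1 u2 h02 a2 b2 h21 h01
  rcases h u0 u1 u2 F0 F1 F2 i10 i20 i01 i21 i02 i12 with g | g | g
  · exact b0 g
  · exact b1 g
  · exact b2 g

/-- an incidence between finite types with all the properties we need -/
structure Inc (n : ℕ) where
  /-- vertices -/
  V : Type
  /-- points -/
  X : Type
  /-- finitely many vertices -/
  fV : Fintype V
  /-- decidable equality -/
  dV : DecidableEq V
  /-- finitely many points -/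
  fX : Finite X
  /-- the incidence -/
  I : V → X → Prop
  /-- some vertex -/
  v0 : V
  /-- distinct vertices are incident with different sets of points -/
  sep : ∀ v w : V, v ≠ w → ∃ x, I v x ∧ ¬ I w x
  /-- no vertex is incident with all points -/
  avoid : ∀ v : V, ∃ x, ¬ I v x
  /-- no comatching of size three -/
  noCom : NoCom I
  /-- homology -/
  good : Good I (n + 1)

/-- the two-point incidence -/
def incBase : Inc 0 where
  V := Bool
  X := Bool
  fV := inferInstance
  dV := inferInstance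
  fX := inferInstance
  I := fun v x => v = x
  v0 := true
  sep := fun v w h => ⟨v, rfl, fun h' => h h'.symm⟩
  avoid := fun v => ⟨!v, by cases v <;> simp⟩
  noCom := by
    intro v0 v1 v2 x0 x1 x2 h1 h2 h3 h4 h5 h6
    left
    rw [h5, ← h6, h1]
  good := by
    refine ⟨vx true - vx false, Submodule.sub_mem _ ?_ ?_, ?_, ?_⟩
    · exact Submodule.subset_span ⟨[true], rfl, ⟨true, by simp⟩, by simp [mon]⟩
    · exact Submodule.subset_span ⟨[false], rfl, ⟨false, by simp⟩, by simp [mon]⟩
    · have : ∀ v : Bool, bd (vx v) = 1 := by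
        intro v
        have := ct_vx_mul (eps Bool) v 1
        rw [mul_one, ct_one, mul_zero, sub_zero, eps_single, one_smul] at this
        exact this
      rw [map_sub, this, this, sub_self]
    · intro b hb hbz
      have h0 : b = 0 := by
        have := ch_le (LinearMap.id : Lam Bool →ₗ[ℚ] Lam Bool) ⊥ (fun l x hl hx => ?_) hb
        · simpa using this
        · rw [Submodule.mem_bot, LinearMap.id_apply]
          match l, hl with
          | [v, w], _ =>
            have h1 : v = x := hx v (by simp)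
            have h2 : w = x := hx w (by simp)
            rw [h1, h2, mon_cons, mon_cons, ← mul_assoc, vx_mul_self, zero_mul]
      rw [h0, map_zero] at hbz
      have h1 := congrArg (ct (co true)) hbz
      have h2 : ∀ v : Bool, ct (co true) (vx v) = if v = true then 1 else 0 := by
        intro v
        have := ct_vx_mul (co true) v 1
        rw [mul_one, ct_one, mul_zero, sub_zero, co_single] at this
        rw [this]
        by_cases h : v = true <;> simp [h]
      rw [map_zero, map_sub, h2, h2] at h1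
      simp at h1

/-- the power -/
def incPow {n : ℕ} (A : Inc n) : Inc (n + 1) where
  V := A.V → Bool
  X := (A.V → Bool) × A.X
  fV := by
    haveI := A.fV
    haveI := A.dV
    infer_instance
  dV := by
    haveI := A.fV
    infer_instance
  fX := by
    haveI := A.fV
    haveI := A.fX
    infer_instance
  I := pw A.I
  v0 := org
  sep := by
    intro y w hyw
    have h1 : ∃ v, y v ≠ w v := by
      by_contra hc
      push Not at hc
      exact hyw (funext hc)
    obtain ⟨v, hv⟩ := h1
    obtain ⟨F, hF⟩ := A.avoid v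
    exact ⟨(y, F), fun u hu => absurd rfl hu, fun h => hF (h v (fun h' => hv h'.symm))⟩
  avoid := by
    intro y
    obtain ⟨F, hF⟩ := A.avoid A.v0
    refine ⟨(fun v => !(y v), F), fun h => hF (h A.v0 ?_)⟩
    change y A.v0 ≠ !(y A.v0)
    cases y A.v0 <;> simp
  noCom := noCom_pow A.I A.noCom
  good := by
    haveI := A.fV
    haveI := A.dV
    exact good_pow A.I n A.good

/-- the iterated powers -/
def inc : (n : ℕ) → Inc n
  | 0 => incBase
  | n + 1 => incPow (inc n)

end Pool.Agent.Q124.CM
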